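import Mathlib
import Pool.Agent.FBA.Main

/-!
# The theory of finite Boolean algebras has no double exponential lower bound on deterministic time

Conventions of the problem file: sentences are words over a fixed finite alphabet, variables are
written in binary, `n` is the length of the word. For every `c > 0` the theory of finite Boolean
algebras is in `DTIME (2 ^ 2 ^ (c n))`; one machine works within `2 ^ 2 ^ (K (n + 1) / log (n + 2))`
steps, and within `2 ^ (K n 2 ^ m)` steps on formulas with `m` different variables. Both for the
theory of all finite Boolean algebras (`TFin`) and for those with `0 ≠ 1` (`TFin'`).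
-/

set_option autoImplicit false

namespace Pool.Agent.Results.MP_fddcc5_lc.NoDoubleExp

open Pool.Agent.FBA

theorem result (T : Set (List Sym)) (hT : T = TFin ∨ T = TFin') :
    (∀ c : ℝ, 0 < c → InDTIME T (fun n => 2 ^ ((2 : ℝ) ^ (c * n)))) ∧ FastDecision T := by
  have h : FastDecision T := by
    rcases hT with rfl | rfl
    · exact fastDecision_of 0 TFin Acc_final_TFin
    · exact fastDecision_of 1 TFin' Acc_final_TFin'
  exact ⟨inDTIME_of_fast h, h⟩

end Pool.Agent.Results.MP_fddcc5_lc.NoDoubleExp
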